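import Pool.Agent.Helper79.GT.St4

/-!
# Project GT, module SM3: the argument of the transition function
-/

set_option autoImplicit false

namespace Pool.Agent.Helper99.GT

open Pool.Agent.Helper73.DC Pool.Agent.Helper79.GS Pool.Agent.Helper79.GT Finset
open scoped Classical

private lemma cQ_lt (M : OTM (Fin 5)) (q : M.Q) : cQ M q < nQ M :=
  (@Finite.equivFin M.Q M.finQ q).isLt

private lemma cQ_inj (M : OTM (Fin 5)) (q q' : M.Q) (h : cQ M q = cQ M q') : q = q' :=
  (@Finite.equivFin M.Q M.finQ).injective (Fin.ext h)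

private lemma cG_lt (M : OTM (Fin 5)) (g : M.Γ) : cG M g < nG M := by
  unfold cG nG
  split_ifs
  · omega
  · have := (@Finite.equivFin M.Γ M.finΓ g).isLt
    omega

private lemma cG_inj (M : OTM (Fin 5)) (g g' : M.Γ) (h : cG M g = cG M g') : g = g' := by
  unfold cG at h
  split_ifs at h with h1 h2 h2
  · rw [h1, h2]
  · exact (@Finite.equivFin M.Γ M.finΓ).injective (Fin.ext (by omega))

private lemma cd_lt (a : Fin 5) : cd a < 5 :=
  lt_of_lt_of_eq (Fintype.equivFin (Fin 5) a).isLt (Fintype.card_fin 5)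

private lemma cS_lt (s : Sym (Fin 5)) : cS s < 7 := by
  rcases s with _ | _ | a
  · simp [cS]
  · simp [cS]
  · have h : cd a < 5 := cd_lt a
    simp only [cS]
    omega

private lemma cd_inj (a b : Fin 5) (h : cd a = cd b) : a = b :=
  (Fintype.equivFin (Fin 5)).injective (Fin.ext h)

private lemma cS_inj (s s' : Sym (Fin 5)) (h : cS s = cS s') : s = s' := by
  rcases s with _ | _ | a <;> rcases s' with _ | _ | b <;> simp only [cS] at h
  · rfl
  · omega
  · omega
  · omega
  · rfl
  · have := cd_lt b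
    omega
  · omega
  · have := cd_lt a
    omega
  · rw [cd_inj a b (by omega)]

private lemma digits (B : ℕ) : ∀ (k : ℕ) (f g : Fin k → ℕ), (∀ t, f t < B) → (∀ t, g t < B) →
    ∑ t, f t * B ^ t.val = ∑ t, g t * B ^ t.val → f = g := by
  intro k
  induction k with
  | zero => intro f g _ _ _; exact Subsingleton.elim _ _
  | succ k ih =>
    intro f g hf hg h
    rw [Fin.sum_univ_succ, Fin.sum_univ_succ] at h
    have e : ∀ f : Fin (k + 1) → ℕ, ∑ i : Fin k, f i.succ * B ^ (i.succ : Fin (k + 1)).val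
        = B * ∑ i : Fin k, f i.succ * B ^ i.val := by
      intro f
      rw [Finset.mul_sum]
      refine Finset.sum_congr rfl fun i _ => ?_
      rw [Fin.val_succ, pow_succ]
      ring
    rw [e f, e g] at h
    simp only [Fin.val_zero, pow_zero, mul_one] at h
    have h0 : f 0 = g 0 := by
      have := congrArg (· % B) h
      simpa [Nat.add_mul_mod_self_left, Nat.mod_eq_of_lt (hf 0), Nat.mod_eq_of_lt (hg 0)] using this
    have hB : 0 < B := lt_of_le_of_lt (Nat.zero_le _) (hf 0)
    rw [h0] at h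
    have h1 := Nat.eq_of_mul_eq_mul_left hB (Nat.add_left_cancel h)
    have h2 := ih (fun i => f i.succ) (fun i => g i.succ) (fun i => hf _) (fun i => hg _) h1
    funext t
    refine Fin.cases h0 (fun i => ?_) t
    exact congrFun h2 i

private lemma two (B x x' y y' : ℕ) (hx : x < B) (hx' : x' < B) (h : x + B * y = x' + B * y') :
    x = x' ∧ y = y' := by
  have h0 : x = x' := by
    have := congrArg (· % B) h
    simpa [Nat.add_mul_mod_self_left, Nat.mod_eq_of_lt hx, Nat.mod_eq_of_lt hx'] using this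
  subst h0
  exact ⟨rfl, Nat.eq_of_mul_eq_mul_left (by omega) (Nat.add_left_cancel h)⟩

private lemma keyM_inj (M : OTM (Fin 5)) (y y' : Ky M) (h : keyM M y = keyM M y') : y = y' := by
  obtain ⟨q, s, g⟩ := y
  obtain ⟨q', s', g'⟩ := y'
  unfold keyM at h
  obtain ⟨h1, h2⟩ := two _ _ _ _ _ (cQ_lt M q) (cQ_lt M q') h
  obtain ⟨h3, h4⟩ := two _ _ _ _ _ (cS_lt s) (cS_lt s') h2
  have h5 := digits (nG M) M.tapes (fun t => cG M (g t)) (fun t => cG M (g' t))
    (fun t => cG_lt M _) (fun t => cG_lt M _) h4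
  have e1 := cQ_inj M _ _ h1
  have e2 := cS_inj _ _ h3
  have e3 : g = g' := funext fun t => cG_inj M _ _ (congrFun h5 t)
  rw [e1, e2, e3]

private lemma see (x : List (Fin 5)) (p : ℕ) : seeN (lett x) p = cS (symAt x p) := by
  unfold seeN symAt lett
  by_cases hp : p = 0
  · simp [hp, cS]
  · simp only [hp, if_false]
    cases h : x[p - 1]? with
    | none => simp [cS]
    | some a => simp [cS]

theorem hSM3 (hSM2 : StSM2) : Pool.Agent.Helper79.GT.StSM3 := by
  intro M
  refine ⟨fun f y => ?_, fun x β S h1 h2 c hc => ?_⟩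
  · unfold tab
    have h : ∃ y', keyM M y' = keyM M y := ⟨y, rfl⟩
    rw [dif_pos h, keyM_inj M _ _ h.choose_spec]
  · obtain ⟨-, a0, a1, a2⟩ := (hSM2 M β S x.length h1 h2).2 c hc
    unfold keyN keyM
    rw [a0, a1, see, Finset.sum_range]
    have e : ∀ t : Fin M.tapes, dg (nG M) (dg β (numC M β S c) (3 + 2 * t.val))
        (dg β (numC M β S c) (2 + 2 * t.val)) = cG M (c.tp t (c.hd t)) := by
      intro t
      rw [(a2 t).1]
      exact (a2 t).2.2
    simp only [e]

end Pool.Agent.Helper99.GT
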